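import Pool.Agent.Helper786_Inv.ExoTypes

/-!
# The conjecture D for all powers of an abelian variety from a single exotic algebraic class

Let `A` be an abelian variety over a field `k`, for example over an algebraic closure of a finitely
generated field of characteristic `p`, and let `W` be a Weil cohomology theory with coefficient field
`K`, for example `ℓ`-adic cohomology, `ℓ ≠ p`. By theorems of Tate, Zarhin and Mori `H^1(A)` is the
direct sum of blocks `V_l`, `l ∈ Λ`, one for each place above `ℓ` of the centres of the endomorphism
algebras of the simple factors of `A`; they are cut out by algebraic correspondences and irreducible
under these and the Galois group. The Rosati involution acts on `Λ`, `l ↦ bar l`, and the polarization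
pairs `V_l` with `V_(bar l)`. Let `𝒴` be a set of varieties such that numerical and homological
equivalence coincide on all products of its members (for instance a point), with `H(Y) ≠ 0` for some
product `Y`.

A class on `A^N × Y` *has the type* `(l_1, …, l_N)` if it is a sum of exterior products
`t_1 × … × t_N × y` with `t_i ∈ V_(l_i)` and `y ∈ H(Y)`. Say that a type *occurs* if for some product
`Y` of members of `𝒴` there is on `A^N × Y` a linear combination of classes of algebraic cycles, which
has this type and is not numerically trivial. Divisors on `A^2`, and all classes obtained from them by
products and linear operations, only give balanced types, where `l` and `bar l` appear equally often.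

**Theorem.** Assume that there is no function `v ≠ 0` on `Λ` with `v (bar l) = -v l` such that
`v (l_1) + … + v (l_N) = 0` for all types which occur. Then numerical and homological equivalence
coincide, in all codimensions, on all products of copies of `A` and members of `𝒴`, for instance on all
powers of `A` (and hence on all varieties dominated by such products).

Equivalently: if numerical and homological equivalence do not coincide on some product of copies of `A`
and members of `𝒴`, then there is a function `v ≠ 0`, `v (bar l) = -v l`, such that all algebraic
classes which are not numerically trivial have the weight zero with respect to `v`.

Examples.

* If `bar l = l` for all `l` there is no condition; this case is in `MP_5f0950_ag.ComponentWeights`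
  (starting library). If `k ⊆ ℂ` the conjecture D for abelian varieties is a theorem of Lieberman; the
  theorem is about fields of characteristic `p`, and about products with members of `𝒴`.
* Let the centre of the endomorphism algebra of the simple abelian variety `A` be an imaginary
  quadratic field `E` in which `ℓ` splits, so `Λ = {l, bar l}`. Then **one** algebraic class which is
  not numerically trivial, on one product `A^N × Y`, of a type in which `l` and `bar l` do not appear
  equally often is sufficient for the conjecture D for **all** powers of `A`. Such classes are the
  Weil classes, in `∧^r V_l` with `r = dim V_l` (pull them back to `A^r` by the addition and take the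
  component in `V_l ⊗ … ⊗ V_l`). They are algebraic for all abelian fourfolds of Weil type in
  characteristic zero (Markman), hence for their specialisations in characteristic `p`, for example
  for those over an algebraic closure of a function field over a finite field for which `E` is still
  the endomorphism algebra. The conjecture D for all powers of such abelian varieties follows without
  any knowledge of the Galois image or of the other Tate classes on the powers.
* In the same way for CM fields `E` of higher degree and abelian varieties of Weil type for all
  pairs of conjugate embeddings of `E`: it suffices that the Weil classes are algebraic and not
  numerically trivial.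
* Classes on `A^N × Y` which are not numerically trivial can come from any relation of `A` to
  varieties `Y` for which the conjecture D is known for all products (for instance a nonzero
  algebraic map from `V_l ⊗ V_l` to the cohomology of a surface `Y` in `𝒴`).

*The hypotheses in Lean.* `W` is any Weil cohomology theory with coefficient field `W.K` of
characteristic zero on a class of smooth proper varieties closed under products. `IsAbelianType` says
that `H(A)` is the cohomology of an abelian variety, with hard Lefschetz for a divisor `D`;
`IsBlockSystemOne` is the description of the blocks by orthogonal idempotents `p l`, which are
`K`-linear combinations of algebraic correspondences of degree `0`; `𝒢` is a set of symmetries of the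
cohomology (elements of the Galois group). `Occurs p 𝒴 l` is the condition above; the products are
written `A × (A × (… × Y))`. `HomEqNum W V` says that numerical and homological equivalence coincide
on `V`.

*Proof.* Let `𝓘(m)` be the space of the multilinear forms in `m` variables on `V = H^1(A)` given by
numerically trivial cycles on `A ^ m × Y` and linear forms on `H(Y)`. Assume that it is not zero for
some `m`. By the theorem of Kempf on optimal one-parameter subgroups, applied to the group of
automorphisms of `V` (this is `Blocks.exists_wts` in the starting library), there is for each such `m` a
function `v = v_m` with `v (bar l) = -v l` such that all nonzero components of forms in `𝓘(m)`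
have negative weight. Let `x` be an algebraic class of type `(l_i)` which is not numerically trivial,
and `z` an algebraic class with `deg(x z) ≠ 0`. The form given by `x` has a component with the weight
`-∑ v (l_i)`, because the polarization pairs `V_l` with `V_(bar l)`. The form given by the image of `z`
under the inverse of the Lefschetz isomorphism has a component with the weight `∑ v (l_i)`. Products of
a numerically trivial class with algebraic classes are numerically trivial, so the product of a form
in `𝓘` with powers of one of these two forms is in `𝓘`, and it has components of positive weight if
`∑ v (l_i) ≠ 0`. As `v_m` depends on `m`, the number of variables has to be bounded first: by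
compactness of the unit sphere finitely many types suffice for all `v`, with a uniform lower bound for
the absolute value of one of the sums, and one takes one suitable number of variables. This is a
contradiction. So `𝓘 = 0`, which is the conjecture for the products.
-/

set_option autoImplicit false

universe u v

namespace Pool.Agent.Results.MP_0c8446_ag.ExoticClasses

open Pool.Agent.H914 Pool.Agent.H914.VarClass Pool.Agent.R908 Pool.Agent.Helper786.Exo

/-- **Numerical and homological equivalence coincide on all products of copies of `A` and of members of
`𝒴` if there is no nonzero odd function on the set of blocks of `H^1(A)` which is zero on the types of
all algebraic classes which are not numerically trivial.** -/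
theorem result {k : Type u} [Field k] {𝒱 : VarClass k} {ops : CycleOps 𝒱}
    (W : WeilCohomology.{u, v} ops) (𝒢 : Set (Symmetry W)) (A : 𝒱.Obj) (m : A.prod A ⟶ A)
    (D : A.Cycles) (hA : IsAbelianType 𝒢 A m D) {Λ : Type} [Fintype Λ] (bar : Λ → Λ)
    (p : Λ → Module.End W.K (W.H A)) (hp : IsBlockSystemOne 𝒢 A D bar p) (𝒴 : Set 𝒱.Obj)
    (hY : ∀ Y, IsProductOf 𝒴 Y → HomEqNum W Y) (h1 : ∃ Y, IsProductOf 𝒴 Y ∧ (1 : W.H Y) ≠ 0)
    (htypes : ∀ v : Λ → ℝ, (∀ l, v (bar l) = -v l) → v ≠ 0 →
      ∃ (N : ℕ) (l : Fin N → Λ), Occurs p 𝒴 l ∧ ∑ i, v (l i) ≠ 0)
    (Z : 𝒱.Obj) (hZ : IsProductOf ({A} ∪ 𝒴) Z) : HomEqNum W Z :=
  homEqNum_types hA hp hY h1 htypes hZ

end Pool.Agent.Results.MP_0c8446_ag.ExoticClasses
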