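import Pool.Agent.U724C.DMain

/-!
# MP_0c8446_ag: conjecture D for `X × X` and the recovery of single cohomology classes

Let `H` be a Weil cohomology with coefficients in `K`, `X` a variety of dimension `n`.  A
correspondence is a linear combination, with coefficients in `K`, of the actions on `H(X)` of cycles
of codimension `n` on `X × X`.  Assume that the projector onto the even degrees of `H(X)` is a
correspondence (this is known for abelian varieties, over an algebraic closure of a finite field by
Katz and Messing, and follows from the conjectures B(X) or C(X)).  We show that the following are
equivalent:

(1) every cycle (with rational coefficients) of codimension `n` on `X × X` which is numerically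
equivalent to zero is homologically equivalent to zero;

(2) for every cycle `u` of codimension `n` on `X × X` which does not act as zero on `H(X)` there are
one class `y ≠ 0` in its image and a correspondence `v` with `u v y = y`;

(3) for every cycle `u` and every class `y` in its image there is a correspondence `v`, which may
depend on `y`, with `u v y = y`;

(4) for every cycle `u` there is a correspondence `v` with `u v u = u`;

(5) every subspace of `H(X)` which is stable under the correspondences has a stable complement.

(1) implies conjecture D for `X`, by multiplying with `h^(n-i)` on the second factor, and for all `X`
together it is the conjecture.  By Jannsen's theorem the ring of correspondences modulo numerical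
equivalence is semisimple, hence regular; the point here is that a lift `v` is only needed for one
cohomology class at a time, and in (2) only for one class at all.

The proof: by the trace formula a numerically trivial `u` has trace zero with every correspondence,
on the even and on the odd part, so `u v` is nilpotent and cannot fix a class `y ≠ 0`.  Conversely, if
an element of the radical of the algebra of correspondences is expanded along a basis of `K` over the
rational numbers, the coefficients are numerically trivial cycles.
-/

set_option autoImplicit false

universe u v

namespace Pool.Agent.Results.MP_0c8446_ag.RecoveryOfClasses

open Pool.Agent.H914 Pool.Agent.U724C

/-- **Main theorem.** -/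
theorem result {k : Type u} [Field k] {𝒱 : VarClass k} {ops : CycleOps 𝒱}
    (W : WeilCohomology.{u, v} ops) (X : 𝒱.Obj) (h : (cohSys W X).CorrProj {i | Even i}) :
    List.TFAE [NumEqHomMid W X, (cohSys W X).RegularSomewhere, (cohSys W X).LocallyRegular,
      (cohSys W X).Regular, (cohSys W X).CorrSemisimple] :=
  d_main W X h

end Pool.Agent.Results.MP_0c8446_ag.RecoveryOfClasses
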